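import Mathlib
import Pool.Agent.H116.ParentTree

/-!
# MP_66d22e — a triplet cover that is not shellable

There is a binary phylogenetic tree with `12` leaves and a triplet cover (with `27` pairs) of it
which is not shellable.
-/

namespace Pool.Agent.Results.MP_66d22e_co.NotShellable

open SimpleGraph

variable {V : Type}

/-- A leaf: a vertex of degree `1`. -/
def IsLeaf (G : SimpleGraph V) (v : V) : Prop := (G.neighborSet v).ncard = 1

/-- A binary phylogenetic tree (its leaf set is `X = {v | IsLeaf G v}`): a tree in which each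
vertex which is not a leaf has degree `3`. -/
def IsBinaryTree (G : SimpleGraph V) : Prop :=
  G.IsTree ∧ ∀ v, ¬ IsLeaf G v → (G.neighborSet v).ncard = 3

/-- The `2`-subsets of the leaf set. -/
def LeafPairs (G : SimpleGraph V) : Set (Sym2 V) :=
  {e | ∃ a b, a ≠ b ∧ IsLeaf G a ∧ IsLeaf G b ∧ e = s(a, b)}

/-- `a` and `b` lie in different connected components of `G` minus the vertex `v`. -/
def DiffComp (G : SimpleGraph V) (v a b : V) : Prop :=
  ∃ (ha : a ∈ ({v}ᶜ : Set V)) (hb : b ∈ ({v}ᶜ : Set V)),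
    (G.induce ({v}ᶜ : Set V)).connectedComponentMk ⟨a, ha⟩ ≠
      (G.induce ({v}ᶜ : Set V)).connectedComponentMk ⟨b, hb⟩

/-- The triple `a b c` of leaves supports the interior vertex `v`, relative to `T`. -/
def Supports (G : SimpleGraph V) (T : Set (Sym2 V)) (v a b c : V) : Prop :=
  IsLeaf G a ∧ IsLeaf G b ∧ IsLeaf G c ∧
    DiffComp G v a b ∧ DiffComp G v a c ∧ DiffComp G v b c ∧
    s(a, b) ∈ T ∧ s(a, c) ∈ T ∧ s(b, c) ∈ T

/-- `T` is a triplet cover of the tree `G`. -/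
def IsTripletCover (G : SimpleGraph V) (T : Set (Sym2 V)) : Prop :=
  T ⊆ LeafPairs G ∧ ∀ v, ¬ IsLeaf G v → ∃ a b c, Supports G T v a b c

/-- The restriction of the tree `G` to `x, a, y, b` is the quartet `xa|yb`: the path from `x` to
`a` and the path from `y` to `b` are vertex-disjoint. -/
def IsQuartet (G : SimpleGraph V) (x a y b : V) : Prop :=
  ∃ (p : G.Walk x a) (q : G.Walk y b), p.IsPath ∧ q.IsPath ∧ List.Disjoint p.support q.support

/-- `T` is shellable: the pairs of leaves not in `T` can be ordered as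
`a₀b₀, …, a₍m₋₁₎b₍m₋₁₎` such that for each `i` there are distinct leaves `x, y` different from
`aᵢ, bᵢ` for which `G` restricts to the quartet `xaᵢ|ybᵢ` and each of the five pairs in
`{aᵢ, bᵢ, x, y}` other than `aᵢbᵢ` is in `T` or is some `aⱼbⱼ` with `j < i`. -/
def IsShellable (G : SimpleGraph V) (T : Set (Sym2 V)) : Prop :=
  ∃ (m : ℕ) (a b : Fin m → V),
    Function.Injective (fun i => s(a i, b i)) ∧
    Set.range (fun i => s(a i, b i)) = LeafPairs G \ T ∧
    ∀ i, ∃ x y, IsLeaf G x ∧ IsLeaf G y ∧ x ≠ y ∧ x ≠ a i ∧ x ≠ b i ∧ y ≠ a i ∧ y ≠ b i ∧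
      IsQuartet G x (a i) y (b i) ∧
      ∀ e ∈ ({s(x, a i), s(y, b i), s(x, y), s(x, b i), s(y, a i)} : Set (Sym2 V)),
        e ∈ T ∨ ∃ j, j < i ∧ e = s(a j, b j)

/-! ### The example -/

/-- parents (root `12`), leaves are `0, …, 11`. -/
def parL : List ℕ :=
  [15, 12, 19, 16, 17, 15, 18, 17, 18, 19, 20, 21, 12, 12, 13, 21, 13, 14, 16, 12, 14, 20]

def depL : List ℕ := [6, 1, 2, 3, 4, 6, 4, 4, 4, 2, 4, 5, 0, 1, 2, 5, 2, 3, 3, 1, 3, 4]

def rowT : List ℕ :=
  [3112, 3460, 674, 1857, 2272, 2581, 920, 1110, 2122, 108, 139, 307]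

def rowC : List ℕ :=
  [3128, 3460, 1698, 1857, 2273, 2581, 920, 1110, 2634, 364, 143, 307]

def tab : List (List ℕ) :=
  [[2, 0, 1, 2, 2, 2, 2, 2, 2, 1, 2, 2, 3, 2, 2, 2, 2, 2, 2, 1, 2, 2],
   [2, 1, 1, 0, 2, 2, 0, 2, 0, 1, 2, 2, 1, 3, 2, 2, 0, 2, 0, 1, 2, 2],
   [1, 2, 2, 2, 0, 1, 2, 0, 2, 2, 1, 1, 2, 2, 3, 1, 2, 0, 2, 2, 1, 1],
   [0, 1, 1, 1, 1, 2, 1, 1, 1, 1, 1, 1, 1, 1, 1, 3, 1, 1, 1, 1, 1, 1],
   [2, 2, 2, 1, 2, 2, 0, 2, 0, 2, 2, 2, 2, 2, 2, 2, 3, 2, 0, 2, 2, 2],
   [1, 1, 1, 1, 0, 1, 1, 2, 1, 1, 1, 1, 1, 1, 1, 1, 1, 3, 1, 1, 1, 1],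
   [0, 0, 0, 0, 0, 0, 2, 0, 1, 0, 0, 0, 0, 0, 0, 0, 0, 0, 3, 0, 0, 0],
   [2, 2, 1, 2, 2, 2, 2, 2, 2, 0, 2, 2, 2, 2, 2, 2, 2, 2, 2, 3, 2, 2],
   [1, 2, 2, 2, 2, 1, 2, 2, 2, 2, 0, 1, 2, 2, 2, 1, 2, 2, 2, 2, 3, 1],
   [2, 1, 1, 1, 1, 2, 1, 1, 1, 1, 1, 0, 1, 1, 1, 2, 1, 1, 1, 1, 1, 3]]

def par (v : Fin 22) : Fin 22 := Fin.ofNat 22 (parL.getD v.val 0)

def dep (v : Fin 22) : ℕ := depL.getD v.val 0

/-- the label of the component of `G - m` containing `u` (for interior `m`). -/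
def c (m u : Fin 22) : ℕ := (tab.getD (m.val - 12) []).getD u.val 0

def memT (u v : Fin 22) : Bool := (rowT.getD u.val 0).testBit v.val

def memC (u v : Fin 22) : Bool := (rowC.getD u.val 0).testBit v.val

def G : SimpleGraph (Fin 22) := Pool.Agent.H116.ParentTree.ofParent par

instance : DecidableRel G.Adj := fun u v =>
  inferInstanceAs (Decidable (u ≠ v ∧ (par u = v ∨ par v = u)))

/-- the triplet cover. -/
def T : Set (Sym2 (Fin 22)) := {e | ∃ u v, memT u v = true ∧ e = s(u, v)}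

lemma isTree : G.IsTree :=
  Pool.Agent.H116.ParentTree.isTree par 12 dep (by decide) (by decide)

lemma ncard_eq (v : Fin 22) :
    (G.neighborSet v).ncard = (Finset.univ.filter (fun w => G.Adj v w)).card := by
  rw [← Set.ncard_coe_finset]
  congr 1
  ext w
  simp

lemma leaf_iff (v : Fin 22) : IsLeaf G v ↔ v.val < 12 := by
  unfold IsLeaf
  rw [ncard_eq]
  revert v
  decide

lemma deg_three (v : Fin 22) (h : ¬ v.val < 12) : (G.neighborSet v).ncard = 3 := by
  rw [ncard_eq]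
  revert v
  decide

lemma c_par : ∀ m : Fin 22, 12 ≤ m.val → ∀ u, u ≠ m → par u ≠ m → c m u = c m (par u) := by
  decide

lemma c_adj (m : Fin 22) (hm : 12 ≤ m.val) (u w : Fin 22) (h : G.Adj u w) (hu : u ≠ m)
    (hw : w ≠ m) : c m u = c m w := by
  obtain ⟨-, h | h⟩ := h
  · rw [c_par m hm u hu (by rw [h]; exact hw), h]
  · rw [c_par m hm w hw (by rw [h]; exact hu), h]

lemma c_walk (m : Fin 22) (hm : 12 ≤ m.val) {u w : Fin 22} (p : G.Walk u w)
    (h : m ∉ p.support) : c m u = c m w := by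
  induction p with
  | nil => rfl
  | cons hadj p ih =>
    rw [Walk.support_cons, List.mem_cons, not_or] at h
    rw [← ih h.2]
    refine c_adj m hm _ _ hadj (Ne.symm h.1) ?_
    rintro rfl
    exact h.2 p.start_mem_support

lemma diffComp (m : Fin 22) (hm : 12 ≤ m.val) (a b : Fin 22) (ha : a ≠ m) (hb : b ≠ m)
    (h : c m a ≠ c m b) : DiffComp G m a b := by
  refine ⟨ha, hb, ?_⟩
  intro he
  rw [ConnectedComponent.eq] at he
  obtain ⟨p⟩ := he
  have key : ∀ (u w : ({m}ᶜ : Set (Fin 22))) (p : (G.induce ({m}ᶜ : Set (Fin 22))).Walk u w),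
      c m u.1 = c m w.1 := by
    intro u w p
    induction p with
    | nil => rfl
    | cons hadj p ih =>
      rw [← ih]
      exact c_adj m hm _ _ hadj (by rename_i u v w; exact u.2) (by rename_i u v w; exact v.2)
  exact h (key _ _ p)

lemma memT_symm : ∀ u v : Fin 22, memT u v = memT v u := by decide

lemma memC_symm : ∀ u v : Fin 22, memC u v = memC v u := by decide

lemma memT_C : ∀ u v : Fin 22, memT u v = true → memC u v = true := by decide

lemma memT_leaf : ∀ u v : Fin 22, memT u v = true → u ≠ v ∧ u.val < 12 ∧ v.val < 12 := by decide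

lemma mem_T_iff (u v : Fin 22) : s(u, v) ∈ T ↔ memT u v = true := by
  constructor
  · rintro ⟨a, b, hab, he⟩
    rw [Sym2.eq_iff] at he
    rcases he with ⟨rfl, rfl⟩ | ⟨rfl, rfl⟩
    · exact hab
    · rw [memT_symm]; exact hab
  · intro h
    exact ⟨u, v, h, rfl⟩

lemma sup_table : ∀ m : Fin 22, 12 ≤ m.val → ∃ a b d : Fin 22,
    (a.val < 12 ∧ b.val < 12 ∧ d.val < 12) ∧ (memT a b = true ∧ memT a d = true ∧
      memT b d = true) ∧ (c m a ≠ c m b ∧ c m a ≠ c m d ∧ c m b ≠ c m d) := by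
  decide +kernel

lemma isTripletCover : IsTripletCover G T := by
  constructor
  · rintro e ⟨u, v, h, rfl⟩
    obtain ⟨h1, h2, h3⟩ := memT_leaf u v h
    exact ⟨u, v, h1, (leaf_iff u).2 h2, (leaf_iff v).2 h3, rfl⟩
  · intro v hv
    rw [leaf_iff] at hv
    have hv' : 12 ≤ v.val := by omega
    obtain ⟨a, b, d, ⟨ha, hb, hd⟩, ⟨h1, h2, h3⟩, k1, k2, k3⟩ := sup_table v hv'
    have na : a ≠ v := by rintro rfl; omega
    have nb : b ≠ v := by rintro rfl; omega
    have nd : d ≠ v := by rintro rfl; omega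
    exact ⟨a, b, d, (leaf_iff a).2 ha, (leaf_iff b).2 hb, (leaf_iff d).2 hd,
      diffComp v hv' a b na nb k1, diffComp v hv' a d na nd k2, diffComp v hv' b d nb nd k3,
      (mem_T_iff _ _).2 h1, (mem_T_iff _ _).2 h2, (mem_T_iff _ _).2 h3⟩

/-- the closed set of `30` pairs. -/
lemma closed : ∀ x a : Fin 22, memC x a = true → ∀ y : Fin 22, memC x y = true →
    memC y a = true → ∀ b : Fin 22, memC x b = true → memC y b = true → a ≠ b →
    memC a b = true ∨ ∃ m : Fin 22, 12 ≤ m.val ∧ c m x ≠ c m a ∧ c m y ≠ c m b := by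
  decide

lemma not_shellable : ¬ IsShellable G T := by
  rintro ⟨k, a, b, -, hrange, hstep⟩
  have hne : ∀ i, a i ≠ b i := by
    intro i h
    have : s(a i, b i) ∈ LeafPairs G \ T := hrange ▸ ⟨i, rfl⟩
    obtain ⟨⟨u, v, huv, -, -, he⟩, -⟩ := this
    rw [Sym2.eq_iff] at he
    rcases he with ⟨h1, h2⟩ | ⟨h1, h2⟩
    · exact huv (by rw [← h1, ← h2, h])
    · exact huv (by rw [← h1, ← h2, h])
  have key : ∀ n (i : Fin k), i.val = n → memC (a i) (b i) = true := by
    intro n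
    induction n using Nat.strong_induction_on with
    | _ n ih =>
    intro i hi
    obtain ⟨x, y, -, -, hxy, hxa, hxb, hya, hyb, ⟨p, q, -, -, hpq⟩, hall⟩ := hstep i
    have conv : ∀ u v, (s(u, v) ∈ T ∨ ∃ j, j < i ∧ s(u, v) = s(a j, b j)) →
        memC u v = true := by
      rintro u v (h | ⟨j, hj, he⟩)
      · exact memT_C u v ((mem_T_iff u v).1 h)
      · have hj' : memC (a j) (b j) = true := ih j.val (by
          have : j.val < i.val := hj
          omega) j rfl
        rw [Sym2.eq_iff] at he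
        rcases he with ⟨h1, h2⟩ | ⟨h1, h2⟩
        · rw [h1, h2]; exact hj'
        · rw [h1, h2, memC_symm]; exact hj'
    have e1 : memC x (a i) = true := conv _ _ (hall _ (by simp))
    have e2 : memC y (b i) = true := conv _ _ (hall _ (by simp))
    have e3 : memC x y = true := conv _ _ (hall _ (by simp))
    have e4 : memC x (b i) = true := conv _ _ (hall _ (by simp))
    have e5 : memC y (a i) = true := conv _ _ (hall _ (by simp))
    rcases closed x (a i) e1 y e3 e5 (b i) e4 e2 (hne i) with h | ⟨m, hm, h1, h2⟩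
    · exact h
    · exfalso
      have hp : m ∈ p.support := by
        by_contra hcon
        exact h1 (c_walk m hm p hcon)
      have hq : m ∈ q.support := by
        by_contra hcon
        exact h2 (c_walk m hm q hcon)
      exact hpq hp hq
  -- the pair `{0, 1}` is missing
  have hmiss : s((0 : Fin 22), 1) ∈ LeafPairs G \ T := by
    refine ⟨⟨0, 1, by decide, (leaf_iff 0).2 (by decide), (leaf_iff 1).2 (by decide), rfl⟩, ?_⟩
    rw [mem_T_iff]
    decide
  rw [← hrange] at hmiss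
  obtain ⟨i, hi⟩ := hmiss
  have hC := key i.val i rfl
  have hi : s(a i, b i) = s((0 : Fin 22), 1) := hi
  rw [Sym2.eq_iff] at hi
  have h01 : memC 0 1 = false := by decide
  rcases hi with ⟨h1, h2⟩ | ⟨h1, h2⟩
  · rw [h1, h2, h01] at hC
    exact absurd hC (by decide)
  · rw [h1, h2, memC_symm, h01] at hC
    exact absurd hC (by decide)

/-- **Main result.** There is a binary phylogenetic tree (with `12` leaves) and a triplet cover
of it that is not shellable. -/
theorem result : ∃ (V : Type) (_ : Finite V) (G : SimpleGraph V) (T : Set (Sym2 V)),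
    IsBinaryTree G ∧ {v | IsLeaf G v}.ncard = 12 ∧ IsTripletCover G T ∧ ¬ IsShellable G T := by
  refine ⟨Fin 22, inferInstance, G, T, ⟨isTree, ?_⟩, ?_, isTripletCover, not_shellable⟩
  · intro v hv
    rw [leaf_iff] at hv
    exact deg_three v hv
  · have : {v | IsLeaf G v} = ((Finset.univ.filter (fun v : Fin 22 => v.val < 12)) :
        Set (Fin 22)) := by
      ext v
      simp [leaf_iff]
    rw [this, Set.ncard_coe_finset]
    decide

end Pool.Agent.Results.MP_66d22e_co.NotShellable
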